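import Pool.Agent.R229.MS.Stm

/-! Piece MS-M3: every nonnull set of finite measure contains an atom or a Bernoulli piece. -/

set_option autoImplicit false

namespace Pool.Agent.R364.MS

open MeasureTheory Filter Topology Set
open scoped InnerProductSpace ENNReal NNReal Cardinal
open Pool.Agent.R229.MS

universe u

/-- `F` generates the measure algebra of `C`. -/
def Gen {X : Type u} [m0 : MeasurableSpace X] (μ : Measure X) (C : Set X) (F : Set (Set X)) : Prop :=
  (∀ A ∈ F, MeasurableSet A) ∧ ∀ D : Set X, MeasurableSet D →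
    ∃ E : Set X, MeasurableSet[MeasurableSpace.generateFrom F] E ∧ D =ᵐ[μ.restrict C] E

/-- The cell of `x` for the family `F`. -/
def cell {X : Type u} (F : Set (Set X)) (x : X) : Set X := {y | ∀ A ∈ F, (y ∈ A ↔ x ∈ A)}

lemma cell_dich {X : Type u} (F : Set (Set X)) (x : X) (E : Set X)
    (hE : MeasurableSet[MeasurableSpace.generateFrom F] E) :
    ∀ y ∈ cell F x, (y ∈ E ↔ x ∈ E) := by
  induction E, hE using MeasurableSpace.generateFrom_induction with
  | hC A hA _ => intro y hy; exact hy A hA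
  | empty => intro y _; simp
  | compl A _ ih => intro y hy; simp only [mem_compl_iff, ih y hy]
  | iUnion f _ ih => intro y hy; simp only [mem_iUnion]; exact exists_congr fun n => ih n y hy

lemma cell_meas {X : Type u} [m0 : MeasurableSpace X] (F : Set (Set X)) (hF : F.Finite)
    (hm : ∀ A ∈ F, MeasurableSet A) (x : X) : MeasurableSet (cell F x) := by
  have e : cell F x = ⋂ A ∈ F, {y | y ∈ A ↔ x ∈ A} := by
    ext y; simp [cell]
  rw [e]
  refine MeasurableSet.biInter hF.countable fun A hA => ?_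
  by_cases h : x ∈ A
  · have : {y | y ∈ A ↔ x ∈ A} = A := by ext y; simp [h]
    rw [this]; exact hm A hA
  · have : {y | y ∈ A ↔ x ∈ A} = Aᶜ := by ext y; simp [h]
    rw [this]; exact (hm A hA).compl

lemma exists_cell {X : Type u} [m0 : MeasurableSpace X] (μ : Measure X) (C : Set X)
    (F : Set (Set X)) (hF : F.Finite) (hC : μ C ≠ 0) :
    ∃ x : X, μ (cell F x ∩ C) ≠ 0 := by
  by_contra hcon
  push Not at hcon
  apply hC
  -- the cells are indexed by the subsets of `F`
  have hfin : (F.powerset).Finite := hF.finite_subsets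
  have hcov : C ⊆ ⋃ G ∈ F.powerset, ({y | ∀ A ∈ F, (y ∈ A ↔ A ∈ G)} ∩ C) := by
    intro y hy
    simp only [mem_iUnion]
    refine ⟨{A ∈ F | y ∈ A}, ?_, ?_, hy⟩
    · intro A hA; exact hA.1
    · intro A hA
      exact ⟨fun h => ⟨hA, h⟩, fun h => h.2⟩
  refine measure_mono_null hcov ?_
  rw [measure_biUnion_null_iff hfin.countable]
  intro G _
  by_cases hne : ({y | ∀ A ∈ F, (y ∈ A ↔ A ∈ G)} ∩ C).Nonempty
  · obtain ⟨x, hx, _⟩ := hne
    have : {y | ∀ A ∈ F, (y ∈ A ↔ A ∈ G)} = cell F x := by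
      ext y
      simp only [cell, mem_setOf_eq]
      refine forall_congr' fun A => forall_congr' fun hA => ?_
      rw [hx A hA]
    rw [this]
    exact hcon x
  · rw [not_nonempty_iff_eq_empty.1 hne]
    exact measure_empty

lemma ae_restrict_diff {X : Type u} [m0 : MeasurableSpace X] {μ : Measure X} {C D E : Set X}
    (hC : MeasurableSet C) (h : D =ᵐ[μ.restrict C] E) :
    ∀ᵐ x ∂μ, x ∈ C → (x ∈ D ↔ x ∈ E) := by
  have h1 : ∀ᵐ x ∂(μ.restrict C), (x ∈ D ↔ x ∈ E) := by
    filter_upwards [h] with x hx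
    exact iff_of_eq hx
  exact (ae_restrict_iff' hC).1 h1

theorem atom_of_finite {X : Type u} [m0 : MeasurableSpace X] (μ : Measure X) (C : Set X)
    (hC : MeasurableSet C) (h0 : μ C ≠ 0) (h1 : μ C ≠ ∞) (F : Set (Set X)) (hF : F.Finite)
    (hg : Gen μ C F) : ∃ C' ⊆ C, IsAtomSet μ C' := by
  obtain ⟨x, hx⟩ := exists_cell μ C F hF h0
  have hcm := cell_meas F hF hg.1 x
  refine ⟨cell F x ∩ C, inter_subset_right, hcm.inter hC, hx, ?_, ?_⟩
  · exact ne_top_of_le_ne_top h1 (measure_mono inter_subset_right)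
  · intro D hD hDs
    obtain ⟨E, hE, hDE⟩ := hg.2 D hD
    have hae := ae_restrict_diff hC hDE
    by_cases hxE : x ∈ E
    · right
      have : ∀ᵐ y ∂μ, y ∉ (cell F x ∩ C) \ D := by
        filter_upwards [hae] with y hy hmem
        obtain ⟨⟨hy1, hy2⟩, hy3⟩ := hmem
        exact hy3 ((hy hy2).2 ((cell_dich F x E hE y hy1).2 hxE))
      exact measure_eq_zero_iff_ae_notMem.2 this
    · left
      have : ∀ᵐ y ∂μ, y ∉ D := by
        filter_upwards [hae] with y hy hmem
        obtain ⟨hy1, hy2⟩ := hDs hmem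
        exact hxE ((cell_dich F x E hE y hy1).1 ((hy hy2).1 hmem))
      exact measure_eq_zero_iff_ae_notMem.2 this

theorem maharam (h : StmtRec.{u}) : StmtMaharam.{u} := by
  intro X m0 μ B hB h0 h1
  let T : Set Cardinal.{u} := {κ | ∃ C : Set X, C ⊆ B ∧ MeasurableSet C ∧ μ C ≠ 0 ∧
    ∃ F : Set (Set X), #F = κ ∧ Gen μ C F}
  have hTne : T.Nonempty := by
    refine ⟨#({A : Set X | MeasurableSet A} : Set (Set X)), B, subset_rfl, hB, h0, _, rfl, ?_, ?_⟩
    · intro A hA; exact hA
    · intro D hD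
      exact ⟨D, MeasurableSpace.measurableSet_generateFrom hD, Filter.EventuallyEq.rfl⟩
  obtain ⟨κ, hκT, hκmin⟩ := WellFounded.has_min (r := fun a b : Cardinal.{u} => a < b)
    Cardinal.lt_wf T hTne
  obtain ⟨C, hCB, hCm, hC0, F0, hF0c, hF0g⟩ := hκT
  have hC1 : μ C ≠ ∞ := ne_top_of_le_ne_top h1 (measure_mono hCB)
  by_cases hκ : κ < ℵ₀
  · have hfin : F0.Finite := by
      rw [← hF0c] at hκ
      exact Cardinal.lt_aleph0_iff_set_finite.1 hκ
    obtain ⟨C', hC', hat⟩ := atom_of_finite μ C hCm hC0 hC1 F0 hfin hF0g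
    exact ⟨C', hC'.trans hCB, Or.inl hat⟩
  · push Not at hκ
    haveI : IsFiniteMeasure (μ.restrict C) := ⟨by
      rw [Measure.restrict_apply_univ]; exact lt_top_iff_ne_top.2 hC1⟩
    have hnow : ∀ F : Set (Set X), (∀ A ∈ F, MeasurableSet A) → #F < κ →
        NowhereGen (μ.restrict C) F := by
      intro F hFm hFκ
      by_contra hcon
      unfold NowhereGen at hcon
      push Not at hcon
      obtain ⟨D, hD, hD0, hDg⟩ := hcon
      refine hκmin (#F) ⟨C ∩ D, inter_subset_left.trans hCB, hCm.inter hD, ?_, F, rfl, hFm, ?_⟩ hFκ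
      · rw [Measure.restrict_apply hD, inter_comm] at hD0
        exact hD0
      · intro D' hD'
        obtain ⟨E, hE, hDE⟩ := hDg (D' ∩ D) (hD'.inter hD) inter_subset_right
        refine ⟨E, hE, ?_⟩
        have hae := ae_restrict_diff hCm hDE
        have : ∀ᵐ x ∂(μ.restrict (C ∩ D)), (x ∈ D' ↔ x ∈ E) := by
          rw [ae_restrict_iff' (hCm.inter hD)]
          filter_upwards [hae] with x hx hmem
          have := hx hmem.1
          simp only [mem_inter_iff, hmem.2, and_true] at this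
          exact this
        filter_upwards [this] with x hx
        exact propext hx
    obtain ⟨Ξ, A, hinf, hAm, horth, hgen⟩ := h X (μ.restrict C) κ hκ hnow F0 hF0g.1 hF0c.le hF0g.2
    exact ⟨C, hCB, Or.inr ⟨Ξ, A, ⟨hCm, hC0, hC1, hinf, hAm, horth, hgen⟩⟩⟩

end Pool.Agent.R364.MS
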