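import Pool.Agent.R229.MS.Stm

/-! Piece MS-G: prescribed conditional probabilities over a nowhere generating family. -/

set_option autoImplicit false

namespace Pool.Agent.R364.MS

open MeasureTheory Filter Topology Set
open scoped InnerProductSpace ENNReal NNReal Cardinal
open Pool.Agent.R229.MS

universe u

lemma hahn_sub {X : Type u} {m m0 : MeasurableSpace X} (hm : m ≤ m0) (α β : Measure X)
    [IsFiniteMeasure α] [IsFiniteMeasure β] :
    ∃ s, MeasurableSet[m] s ∧ (∀ t, MeasurableSet[m] t → t ⊆ s → β t ≤ α t) ∧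
      ∀ t, MeasurableSet[m] t → t ⊆ sᶜ → α t ≤ β t := by
  obtain ⟨s, hs, h1, h2⟩ := @hahn_decomposition X m (α.trim hm) (β.trim hm) _ _
  refine ⟨s, hs, fun t ht hts => ?_, fun t ht hts => ?_⟩
  · have := h1 t ht hts
    rwa [trim_measurableSet_eq hm ht, trim_measurableSet_eq hm ht] at this
  · have := h2 t ht hts
    rwa [trim_measurableSet_eq hm ht, trim_measurableSet_eq hm ht] at this

section
variable {X : Type u} {m m0 : MeasurableSpace X} (hm : m ≤ m0) (ν : Measure X) [IsFiniteMeasure ν]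

include hm

/-- Halving. -/
lemma half (hng : ∀ D : Set X, MeasurableSet D → ν D ≠ 0 → ∃ D' : Set X, MeasurableSet D' ∧ D' ⊆ D ∧
      ∀ E : Set X, MeasurableSet[m] E → ¬ D' =ᵐ[ν] (E ∩ D : Set X))
    (A : Set X) (hA : MeasurableSet A) (hA0 : ν A ≠ 0) :
    ∃ B ⊆ A, MeasurableSet B ∧ ν B ≠ 0 ∧
      ∀ E, MeasurableSet[m] E → 2 * ν.real (B ∩ E) ≤ ν.real (A ∩ E) := by
  obtain ⟨D', hD', hD's, hne⟩ := hng A hA hA0
  -- `s` is the set where `D'` has at most the conditional probability of `A \ D'`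
  obtain ⟨s, hs, h1, h2⟩ := hahn_sub hm (ν.restrict (A \ D')) (ν.restrict D')
  have hs0 : MeasurableSet s := hm s hs
  have k1 : ∀ t, MeasurableSet[m] t → t ⊆ s → ν.real (t ∩ D') ≤ ν.real (t ∩ (A \ D')) := by
    intro t ht hts
    have := h1 t ht hts
    rw [Measure.restrict_apply (hm t ht), Measure.restrict_apply (hm t ht)] at this
    exact ENNReal.toReal_mono (measure_ne_top _ _) this
  have k2 : ∀ t, MeasurableSet[m] t → t ⊆ sᶜ → ν.real (t ∩ (A \ D')) ≤ ν.real (t ∩ D') := by
    intro t ht hts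
    have := h2 t ht hts
    rw [Measure.restrict_apply (hm t ht), Measure.restrict_apply (hm t ht)] at this
    exact ENNReal.toReal_mono (measure_ne_top _ _) this
  refine ⟨(D' ∩ s) ∪ ((A \ D') ∩ sᶜ), ?_, ?_, ?_, ?_⟩
  · exact union_subset (inter_subset_left.trans hD's) (inter_subset_left.trans diff_subset)
  · exact (hD'.inter hs0).union ((hA.diff hD').inter hs0.compl)
  · intro h0
    apply hne sᶜ hs.compl
    have h01 : ν (D' ∩ s) = 0 := measure_mono_null subset_union_left h0
    have h02 : ν ((A \ D') ∩ sᶜ) = 0 := measure_mono_null subset_union_right h0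
    have a1 := measure_eq_zero_iff_ae_notMem.1 h01
    have a2 := measure_eq_zero_iff_ae_notMem.1 h02
    filter_upwards [a1, a2] with x hx1 hx2
    refine propext ⟨fun h => ?_, fun h => ?_⟩
    · exact ⟨fun hxs => hx1 ⟨h, hxs⟩, hD's h⟩
    · by_contra hxD
      exact hx2 ⟨⟨h.2, hxD⟩, h.1⟩
  · intro E hE
    have hE0 := hm E hE
    have e1 := k1 (E ∩ s) (hE.inter hs) inter_subset_right
    have e2 := k2 (E ∩ sᶜ) (hE.inter hs.compl) inter_subset_right
    have e3 : ν.real (((D' ∩ s) ∪ ((A \ D') ∩ sᶜ)) ∩ E) ≤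
        ν.real (E ∩ s ∩ D') + ν.real (E ∩ sᶜ ∩ (A \ D')) := by
      refine le_trans (measureReal_mono ?_ (measure_ne_top _ _)) (measureReal_union_le _ _)
      rintro x ⟨h | h, hxE⟩
      · exact Or.inl ⟨⟨hxE, h.2⟩, h.1⟩
      · exact Or.inr ⟨⟨hxE, h.2⟩, h.1⟩
    have e4 : ν.real (E ∩ s ∩ D') + ν.real (E ∩ s ∩ (A \ D')) + (ν.real (E ∩ sᶜ ∩ (A \ D')) +
        ν.real (E ∩ sᶜ ∩ D')) ≤ ν.real (A ∩ E) := by
      rw [← measureReal_union, ← measureReal_union, ← measureReal_union]
      · refine measureReal_mono ?_ (measure_ne_top _ _)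
        rintro x ((h | h) | (h | h))
        · exact ⟨hD's h.2, h.1.1⟩
        · exact ⟨h.2.1, h.1.1⟩
        · exact ⟨h.2.1, h.1.1⟩
        · exact ⟨hD's h.2, h.1.1⟩
      · rw [Set.disjoint_left]
        rintro x (h | h) (h' | h')
        · exact h'.1.2 h.1.2
        · exact h'.1.2 h.1.2
        · exact h'.1.2 h.1.2
        · exact h'.1.2 h.1.2
      · exact ((hE0.inter hs0.compl).inter (hA.diff hD')).union ((hE0.inter hs0.compl).inter hD')
      · rw [Set.disjoint_left]
        rintro x h h'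
        exact h.2.2 h'.2
      · exact (hE0.inter hs0.compl).inter hD'
      · rw [Set.disjoint_left]
        rintro x h h'
        exact h'.2.2 h.2
      · exact (hE0.inter hs0).inter (hA.diff hD')
    linarith

lemma small (hng : ∀ D : Set X, MeasurableSet D → ν D ≠ 0 → ∃ D' : Set X, MeasurableSet D' ∧ D' ⊆ D ∧
      ∀ E : Set X, MeasurableSet[m] E → ¬ D' =ᵐ[ν] (E ∩ D : Set X)) (k : ℕ)
    (A : Set X) (hA : MeasurableSet A) (hA0 : ν A ≠ 0) :
    ∃ B ⊆ A, MeasurableSet B ∧ ν B ≠ 0 ∧
      ∀ E, MeasurableSet[m] E → 2 ^ k * ν.real (B ∩ E) ≤ ν.real (A ∩ E) := by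
  induction k with
  | zero => exact ⟨A, subset_rfl, hA, hA0, fun E _ => by simp⟩
  | succ k ih =>
    obtain ⟨B, hBA, hB, hB0, hBE⟩ := ih
    obtain ⟨C, hCB, hC, hC0, hCE⟩ := half hm ν hng B hB hB0
    refine ⟨C, hCB.trans hBA, hC, hC0, fun E hE => ?_⟩
    have h1 := hBE E hE
    have h2 := hCE E hE
    have h3 : (2 : ℝ) ^ k * (2 * ν.real (C ∩ E)) ≤ 2 ^ k * ν.real (B ∩ E) :=
      mul_le_mul_of_nonneg_left h2 (by positivity)
    calc (2 : ℝ) ^ (k + 1) * ν.real (C ∩ E) = 2 ^ k * (2 * ν.real (C ∩ E)) := by ring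
      _ ≤ _ := h3.trans h1

end

/-- Greedy exhaustion: a maximal element for a property stable under increasing unions. -/
lemma exists_max {X : Type u} [m0 : MeasurableSpace X] (ν : Measure X) [IsFiniteMeasure ν]
    (P : Set X → Prop) (h0 : P ∅)
    (hU : ∀ b : ℕ → Set X, Monotone b → (∀ n, MeasurableSet (b n) ∧ P (b n)) → P (⋃ n, b n)) :
    ∃ b : Set X, MeasurableSet b ∧ P b ∧
      ∀ d, b ⊆ d → MeasurableSet d → P d → ν.real d ≤ ν.real b := by
  have step : ∀ b : {b : Set X // MeasurableSet b ∧ P b},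
      ∃ c : {b : Set X // MeasurableSet b ∧ P b}, b.1 ⊆ c.1 ∧
        ∀ d, b.1 ⊆ d → MeasurableSet d → P d →
          ν.real d - ν.real b.1 ≤ 2 * (ν.real c.1 - ν.real b.1) := by
    rintro ⟨b, hb, hPb⟩
    let T : Set ℝ := {r | ∃ d, b ⊆ d ∧ MeasurableSet d ∧ P d ∧ ν.real d = r}
    have hTb : BddAbove T := by
      refine ⟨ν.real univ, ?_⟩
      rintro r ⟨d, _, _, _, rfl⟩
      exact measureReal_mono (subset_univ _) (measure_ne_top _ _)
    have hTn : T.Nonempty := ⟨_, b, subset_rfl, hb, hPb, rfl⟩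
    by_cases hlt : ν.real b < sSup T
    · obtain ⟨r, ⟨c, hbc, hc, hPc, rfl⟩, hr⟩ := exists_lt_of_lt_csSup hTn
        (show (ν.real b + sSup T) / 2 < sSup T by linarith)
      refine ⟨⟨c, hc, hPc⟩, hbc, fun d hd hdm hPd => ?_⟩
      have := le_csSup hTb ⟨d, hd, hdm, hPd, rfl⟩
      simp only
      linarith
    · refine ⟨⟨b, hb, hPb⟩, subset_rfl, fun d hd hdm hPd => ?_⟩
      have := le_csSup hTb ⟨d, hd, hdm, hPd, rfl⟩
      simp only
      linarith
  choose nxt hn1 hn2 using step
  let b : ℕ → {b : Set X // MeasurableSet b ∧ P b} := fun n =>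
    Nat.rec ⟨∅, MeasurableSet.empty, h0⟩ (fun _ c => nxt c) n
  have hbs : ∀ n, b (n + 1) = nxt (b n) := fun n => rfl
  have hmono : Monotone fun n => (b n).1 := monotone_nat_of_le_succ fun n => by
    rw [hbs]; exact hn1 _
  refine ⟨⋃ n, (b n).1, MeasurableSet.iUnion fun n => (b n).2.1,
    hU (fun n => (b n).1) hmono fun n => (b n).2, fun d hd hdm hPd => ?_⟩
  have hlim : Tendsto (fun n => ν.real (b n).1) atTop (𝓝 (ν.real (⋃ n, (b n).1))) := by
    have := tendsto_measure_iUnion_atTop (μ := ν) hmono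
    exact (ENNReal.tendsto_toReal (measure_ne_top _ _)).comp this
  have hlim2 : Tendsto (fun n => ν.real (b n).1 + 2 * (ν.real (b (n + 1)).1 - ν.real (b n).1)) atTop
      (𝓝 (ν.real (⋃ n, (b n).1) + 2 * (ν.real (⋃ n, (b n).1) - ν.real (⋃ n, (b n).1)))) :=
    hlim.add (((hlim.comp (tendsto_add_atTop_nat 1)).sub hlim).const_mul 2)
  have hle : ∀ n, ν.real d ≤ ν.real (b n).1 + 2 * (ν.real (b (n + 1)).1 - ν.real (b n).1) := by
    intro n
    have := hn2 (b n) d ((subset_iUnion (fun n => (b n).1) n).trans hd) hdm hPd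
    rw [← hbs] at this
    linarith
  have := ge_of_tendsto' hlim2 hle
  linarith

theorem core {X : Type u} {m m0 : MeasurableSpace X} (hm : m ≤ m0) (ν : Measure X)
    [IsFiniteMeasure ν]
    (hng : ∀ D : Set X, MeasurableSet D → ν D ≠ 0 → ∃ D' : Set X, MeasurableSet D' ∧ D' ⊆ D ∧
      ∀ E : Set X, MeasurableSet[m] E → ¬ D' =ᵐ[ν] (E ∩ D : Set X))
    (g : X → ℝ) (hg : Measurable[m] g) (hg0 : ∀ x, 0 ≤ g x) (hg1 : ∀ x, g x ≤ 1) :
    ∃ b : Set X, MeasurableSet b ∧ ν[b.indicator (fun _ => (1 : ℝ)) | m] =ᵐ[ν] g := by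
  have hgm : Measurable g := hg.mono hm le_rfl
  have hgi : Integrable g ν := by
    refine Integrable.of_bound (C := 1) hgm.aestronglyMeasurable (Eventually.of_forall fun x => ?_)
    rw [Real.norm_eq_abs, abs_of_nonneg (hg0 x)]
    exact hg1 x
  let G : Measure X := ν.withDensity fun x => ENNReal.ofReal (g x)
  haveI : IsFiniteMeasure G := isFiniteMeasure_withDensity_ofReal hgi.2
  have hGreal : ∀ E, MeasurableSet E → G.real E = ∫ x in E, g x ∂ν := by
    intro E hE
    have h1 : G E = ∫⁻ x in E, ENNReal.ofReal (g x) ∂ν := withDensity_apply _ hE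
    rw [Measure.real, h1, integral_eq_lintegral_of_nonneg_ae (Eventually.of_forall hg0)
      hgm.aestronglyMeasurable.restrict]
  have hGle : ∀ E, MeasurableSet E → G.real E ≤ ν.real E := by
    intro E hE
    rw [hGreal E hE]
    calc ∫ x in E, g x ∂ν ≤ ∫ x in E, (1 : ℝ) ∂ν :=
          integral_mono hgi.integrableOn (integrable_const _) fun x => hg1 x
      _ = ν.real E := by simp
  let P : Set X → Prop := fun b => ∀ E, MeasurableSet[m] E → ν.real (b ∩ E) ≤ G.real E
  obtain ⟨b, hb, hPb, hbmax⟩ := exists_max ν P (fun E _ => by simp [measureReal_nonneg]) (by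
    intro b hmono hbP E hE
    have h1 : Monotone fun n => b n ∩ E := fun i j hij => inter_subset_inter_left _ (hmono hij)
    have h2 := tendsto_measure_iUnion_atTop (μ := ν) h1
    have h3 : Tendsto (fun n => ν.real (b n ∩ E)) atTop (𝓝 (ν.real ((⋃ n, b n) ∩ E))) := by
      rw [iUnion_inter]
      exact (ENNReal.tendsto_toReal (measure_ne_top _ _)).comp h2
    exact le_of_tendsto' h3 fun n => (hbP n).2 E hE)
  refine ⟨b, hb, ?_⟩
  have key : ∀ E, MeasurableSet[m] E → ν.real (b ∩ E) = G.real E := by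
    intro E1 hE1
    by_contra hne
    have hlt : ν.real (b ∩ E1) < G.real E1 := lt_of_le_of_ne (hPb E1 hE1) hne
    -- choose `δ = 2^{-k}`
    obtain ⟨k, hk⟩ : ∃ k : ℕ, ν.real (b ∩ E1) + (1 / 2) ^ k * ν.real E1 < G.real E1 := by
      have hl : Tendsto (fun k : ℕ => ν.real (b ∩ E1) + (1 / 2 : ℝ) ^ k * ν.real E1) atTop
          (𝓝 (ν.real (b ∩ E1) + 0 * ν.real E1)) :=
        ((tendsto_pow_atTop_nhds_zero_of_lt_one (by norm_num) (by norm_num)).mul_const _).const_add _
      rw [zero_mul, add_zero] at hl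
      exact (hl.eventually (gt_mem_nhds hlt)).exists
    set δ : ℝ := (1 / 2) ^ k with hδ
    have hδ0 : 0 < δ := by positivity
    let β : Measure X := ν.restrict b + (ENNReal.ofReal δ) • ν
    haveI : IsFiniteMeasure β := by
      haveI : IsFiniteMeasure ((ENNReal.ofReal δ) • ν) :=
        Measure.smul_finite ν ENNReal.ofReal_ne_top
      infer_instance
    have hβ : ∀ E, MeasurableSet E → β.real E = ν.real (b ∩ E) + δ * ν.real E := by
      intro E hE
      simp only [β, Measure.real, Measure.add_apply, Measure.smul_apply, smul_eq_mul]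
      rw [Measure.restrict_apply hE, ENNReal.toReal_add (measure_ne_top _ _)
        (ENNReal.mul_ne_top ENNReal.ofReal_ne_top (measure_ne_top _ _)), ENNReal.toReal_mul,
        ENNReal.toReal_ofReal hδ0.le, inter_comm]
    obtain ⟨s, hs, h1, h2⟩ := hahn_sub hm G β
    have k1 : ∀ t, MeasurableSet[m] t → t ⊆ s → ν.real (b ∩ t) + δ * ν.real t ≤ G.real t := by
      intro t ht hts
      rw [← hβ t (hm t ht)]
      exact ENNReal.toReal_mono (measure_ne_top _ _) (h1 t ht hts)
    have k2 : ∀ t, MeasurableSet[m] t → t ⊆ sᶜ → G.real t ≤ ν.real (b ∩ t) + δ * ν.real t := by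
      intro t ht hts
      rw [← hβ t (hm t ht)]
      exact ENNReal.toReal_mono (measure_ne_top _ _) (h2 t ht hts)
    have hs0 : MeasurableSet s := hm s hs
    have hE10 : MeasurableSet E1 := hm E1 hE1
    -- `s` is not null
    have hspos : 0 < ν.real s := by
      rcases (measureReal_nonneg : 0 ≤ ν.real s).lt_or_eq with h | h
      · exact h
      · exfalso
        have a1 := k2 (E1 ∩ sᶜ) (hE1.inter hs.compl) inter_subset_right
        have a2 : G.real E1 = G.real (E1 ∩ s) + G.real (E1 ∩ sᶜ) := by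
          rw [← measureReal_inter_add_diff (μ := G) (s := E1) hs0]
          rfl
        have a3 : G.real (E1 ∩ s) ≤ 0 := by
          calc G.real (E1 ∩ s) ≤ ν.real (E1 ∩ s) := hGle _ (hE10.inter hs0)
            _ ≤ ν.real s := measureReal_mono inter_subset_right (measure_ne_top _ _)
            _ = 0 := h.symm
        have a4 : ν.real (b ∩ (E1 ∩ sᶜ)) ≤ ν.real (b ∩ E1) :=
          measureReal_mono (inter_subset_inter_right _ inter_subset_left) (measure_ne_top _ _)
        have a5 : ν.real (E1 ∩ sᶜ) ≤ ν.real E1 :=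
          measureReal_mono inter_subset_left (measure_ne_top _ _)
        have a6 : δ * ν.real (E1 ∩ sᶜ) ≤ δ * ν.real E1 := mul_le_mul_of_nonneg_left a5 hδ0.le
        linarith
    have hsb : ν (s \ b) ≠ 0 := by
      intro h0
      have a1 := k1 s hs subset_rfl
      have a2 := hGle s hs0
      have a3 : ν.real s = ν.real (b ∩ s) := by
        rw [← measureReal_inter_add_diff (μ := ν) (s := s) hb, inter_comm s b]
        simp [Measure.real, h0]
      have a4 : 0 < δ * ν.real s := mul_pos hδ0 hspos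
      linarith
    obtain ⟨B, hBs, hB, hB0, hBE⟩ := small hm ν hng k (s \ b) (hs0.diff hb) hsb
    have hBE' : ∀ E, MeasurableSet[m] E → ν.real (B ∩ E) ≤ δ * ν.real (s ∩ E) := by
      intro E hE
      have a1 := hBE E hE
      have a2 : ν.real ((s \ b) ∩ E) ≤ ν.real (s ∩ E) :=
        measureReal_mono (inter_subset_inter_left _ diff_subset) (measure_ne_top _ _)
      have a3 : δ * (2 ^ k * ν.real (B ∩ E)) ≤ δ * ν.real (s ∩ E) :=
        mul_le_mul_of_nonneg_left (a1.trans a2) hδ0.le
      have a4 : δ * (2 ^ k * ν.real (B ∩ E)) = ν.real (B ∩ E) := by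
        rw [← mul_assoc, hδ, ← mul_pow]; norm_num
      linarith
    have hPd : P (b ∪ B) := by
      intro E hE
      have hE0 := hm E hE
      have a1 : ν.real ((b ∪ B) ∩ E) ≤ ν.real (b ∩ (E ∩ sᶜ)) + ν.real (b ∩ (E ∩ s)) +
          ν.real (B ∩ E) := by
        refine le_trans (measureReal_mono (s₂ := (b ∩ (E ∩ sᶜ)) ∪ (b ∩ (E ∩ s)) ∪ (B ∩ E)) ?_
          (measure_ne_top _ _)) ((measureReal_union_le _ _).trans
            (add_le_add_left (measureReal_union_le _ _) _))
        rintro x ⟨hx | hx, hxE⟩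
        · by_cases hxs : x ∈ s
          · exact Or.inl (Or.inr ⟨hx, hxE, hxs⟩)
          · exact Or.inl (Or.inl ⟨hx, hxE, hxs⟩)
        · exact Or.inr ⟨hx, hxE⟩
      have a2 := hPb (E ∩ sᶜ) (hE.inter hs.compl)
      have a3 := k1 (E ∩ s) (hE.inter hs) inter_subset_right
      have a4 := hBE' E hE
      rw [inter_comm s E] at a4
      have a5 : G.real E = G.real (E ∩ s) + G.real (E ∩ sᶜ) := by
        rw [← measureReal_inter_add_diff (μ := G) (s := E) hs0]
        rfl
      linarith
    have hfin := hbmax (b ∪ B) subset_union_left (hb.union hB) hPd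
    have hdisj : Disjoint b B := by
      rw [Set.disjoint_left]
      intro x hxb hxB
      exact (hBs hxB).2 hxb
    rw [measureReal_union hdisj hB] at hfin
    have hBpos : 0 < ν.real B := by
      rw [Measure.real]
      exact ENNReal.toReal_pos hB0 (measure_ne_top _ _)
    linarith
  -- the conditional expectation
  symm
  refine ae_eq_condExp_of_forall_setIntegral_eq hm ?_ ?_ ?_ ?_
  · exact (integrable_const (1 : ℝ)).indicator hb
  · intro s _ _
    exact hgi.integrableOn
  · intro s hs _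
    have hs0 := hm s hs
    rw [← hGreal s hs0, ← key s hs, setIntegral_indicator hb, inter_comm]
    simp
  · exact hg.stronglyMeasurable.aestronglyMeasurable

theorem stmtG : StmtG.{u} := by
  intro X m0 ν _ F hF hng g hg hg0 hg1
  exact core (MeasurableSpace.generateFrom_le hF) ν hng g hg hg0 hg1

end Pool.Agent.R364.MS
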